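import Mathlib

/-!
# MP_f969e6_lc: an iso-dual polycyclic code from a trinomial whose generator is not a square root

For `t = x^20 + x^10 + 1` the divisor `g = x^10 + x^9 + x^7 + x^6 + x^2 + x + 1` of `t` generates an
iso-dual polycyclic code (exchanging the two halves of the coordinates maps the code onto its dual),
but `g ^ 2 ≠ t`.
-/

set_option autoImplicit false

open Polynomial

namespace Pool.Agent.Results.MP_f969e6_lc.IsoDualNotSquare

/-- The trinomial `x^n + x^i + 1` over the field with two elements. -/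
noncomputable def tri (n i : ℕ) : (ZMod 2)[X] := X ^ n + X ^ i + 1

/-- The polynomial `c_0 + c_1 x + ... + c_{n-1} x^{n-1}` of a word. -/
noncomputable def toPoly {n : ℕ} (c : Fin n → ZMod 2) : (ZMod 2)[X] :=
  ∑ k : Fin n, C (c k) * X ^ (k : ℕ)

/-- The polycyclic code generated by `g` with respect to `t = x^n + x^i + 1`: the words whose class
in `F_2[x]/(t)` lies in the ideal generated by the class of `g`. -/
def code (n i : ℕ) (g : (ZMod 2)[X]) : Set (Fin n → ZMod 2) :=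
  {c | Ideal.Quotient.mk (Ideal.span {tri n i}) (toPoly c) ∈
    Ideal.span {Ideal.Quotient.mk (Ideal.span {tri n i}) g}}

/-- The dual code for the standard inner product. -/
def dual {n : ℕ} (D : Set (Fin n → ZMod 2)) : Set (Fin n → ZMod 2) :=
  {u | ∀ v ∈ D, ∑ k, u k * v k = 0}

/-- Some permutation of the coordinates maps the code onto its dual. -/
def IsoDual {n : ℕ} (D : Set (Fin n → ZMod 2)) : Prop :=
  ∃ σ : Equiv.Perm (Fin n), (fun c => c ∘ σ) '' D = dual D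

theorem mem_code {n i : ℕ} {g : (ZMod 2)[X]} (hg : g ∣ tri n i) (c : Fin n → ZMod 2) :
    c ∈ code n i g ↔ g ∣ toPoly c := by
  unfold code
  rw [Set.mem_ofPred_eq, Ideal.mem_span_singleton]
  constructor
  · rintro ⟨a, ha⟩
    obtain ⟨b, rfl⟩ := Ideal.Quotient.mk_surjective a
    rw [← map_mul, Ideal.Quotient.eq, Ideal.mem_span_singleton] at ha
    have h1 : g ∣ toPoly c - g * b := hg.trans ha
    have h2 := dvd_add h1 (dvd_mul_right g b)
    simpa using h2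
  · rintro ⟨b, hb⟩
    exact ⟨Ideal.Quotient.mk _ b, by rw [hb, map_mul]⟩

/-- The generator `g = x^10 + x^9 + x^7 + x^6 + x^2 + x + 1`. -/
noncomputable def g : (ZMod 2)[X] := X ^ 10 + X ^ 9 + X ^ 7 + X ^ 6 + X ^ 2 + X + 1

theorem two : (2 : (ZMod 2)[X]) = 0 := by
  have : ((2 : ZMod 2)) = 0 := rfl
  calc (2 : (ZMod 2)[X]) = C (2 : ZMod 2) := (map_ofNat C 2).symm
    _ = 0 := by rw [this, C_0]

/-- The matrix of the code. -/
def A : Fin 10 → Fin 10 → ZMod 2 :=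
  ![![1, 1, 1, 0, 0, 0, 1, 1, 0, 1],
    ![1, 0, 0, 1, 0, 0, 1, 0, 1, 1],
    ![1, 0, 1, 0, 1, 0, 1, 0, 0, 0],
    ![0, 1, 0, 1, 0, 1, 0, 1, 0, 0],
    ![0, 0, 1, 0, 1, 0, 1, 0, 1, 0],
    ![0, 0, 0, 1, 0, 1, 0, 1, 0, 1],
    ![1, 1, 1, 0, 1, 0, 0, 1, 1, 1],
    ![1, 0, 0, 1, 0, 1, 1, 1, 1, 0],
    ![0, 1, 0, 0, 1, 0, 1, 1, 1, 1],
    ![1, 1, 0, 0, 0, 1, 1, 0, 1, 0]]

theorem A_symm : ∀ i j, A i j = A j i := by decide

/-- The quotients of the division of `x^(10+k)` by `g`. -/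
noncomputable def Q : Fin 10 → (ZMod 2)[X] :=
  ![1, X + 1, X ^ 2 + X + 1, X ^ 3 + X ^ 2 + X, X ^ 4 + X ^ 3 + X ^ 2, X ^ 5 + X ^ 4 + X ^ 3,
    X ^ 6 + X ^ 5 + X ^ 4 + 1, X ^ 7 + X ^ 6 + X ^ 5 + X + 1, X ^ 8 + X ^ 7 + X ^ 6 + X ^ 2 + X,
    X ^ 9 + X ^ 8 + X ^ 7 + X ^ 3 + X ^ 2 + 1]

/-- The remainders of the division of `x^(10+k)` by `g`. -/
noncomputable def ρ : Fin 10 → (ZMod 2)[X] :=
  ![X ^ 9 + X ^ 7 + X ^ 6 + X ^ 2 + X + 1, X ^ 9 + X ^ 8 + X ^ 6 + X ^ 3 + 1,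
    X ^ 6 + X ^ 4 + X ^ 2 + 1, X ^ 7 + X ^ 5 + X ^ 3 + X, X ^ 8 + X ^ 6 + X ^ 4 + X ^ 2,
    X ^ 9 + X ^ 7 + X ^ 5 + X ^ 3, X ^ 9 + X ^ 8 + X ^ 7 + X ^ 4 + X ^ 2 + X + 1,
    X ^ 8 + X ^ 7 + X ^ 6 + X ^ 5 + X ^ 3 + 1, X ^ 9 + X ^ 8 + X ^ 7 + X ^ 6 + X ^ 4 + X,
    X ^ 8 + X ^ 6 + X ^ 5 + X + 1]

theorem rho_eq (k : Fin 10) : ρ k = ∑ j : Fin 10, C (A j k) * X ^ (j : ℕ) := by
  fin_cases k <;> simp [ρ, A, Fin.sum_univ_succ] <;> ring

theorem division (k : Fin 10) : (X : (ZMod 2)[X]) ^ (10 + (k : ℕ)) = g * Q k + ρ k := by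
  fin_cases k
  · simp only [Q, ρ, g, Fin.zero_eta, Fin.isValue, Matrix.cons_val_zero]
    linear_combination (-(X ^ 9 + X ^ 7 + X ^ 6 + X ^ 2 + X + 1)) * two
  · simp [Q, ρ, g]
    linear_combination (-(X^10 +X^9 +X^8 +X^7 +X^6 +X^3 +X^2 +X +1)) * two
  · simp [Q, ρ, g]
    linear_combination (-(X^11 +X^10 +X^9 +X^8 +X^7 +X^6 +X^4 +X^3 +2*X^2 +X +1)) * two
  · simp [Q, ρ, g]
    linear_combination (-(X^12 +X^11 +X^10 +X^9 +X^8 +X^7 +X^5 +X^4 +2*X^3 +X^2 +X)) * two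
  · simp [Q, ρ, g]
    linear_combination (-(X^13 +X^12 +X^11 +X^10 +X^9 +X^8 +X^6 +X^5 +2*X^4 +X^3 +X^2)) * two
  · simp [Q, ρ, g]
    linear_combination (-(X^14 +X^13 +X^12 +X^11 +X^10 +X^9 +X^7 +X^6 +2*X^5 +X^4 +X^3)) * two
  · simp [Q, ρ, g]
    linear_combination (-(X^15 +X^14 +X^13 +X^12 +X^11 +X^10 +X^9 +X^8 +2*X^7 +2*X^6 +X^5 +X^4 +X^2
      +X +1)) * two
  · simp [Q, ρ, g]
    linear_combination (-(X^16 +X^15 +X^14 +X^13 +X^12 +X^11 +X^10 +X^9 +2*X^8 +3*X^7 +2*X^6 +X^5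
      +X^3 +X^2 +X +1)) * two
  · simp [Q, ρ, g]
    linear_combination (-(X^17 +X^16 +X^15 +X^14 +X^13 +X^12 +X^11 +X^10 +2*X^9 +3*X^8 +2*X^7 +X^6
      +X^4 +X^3 +X^2 +X)) * two
  · simp [Q, ρ, g]
    linear_combination (-(X^18 +X^17 +X^16 +X^15 +X^14 +X^13 +X^12 +X^11 +2*X^10 +3*X^9 +2*X^8 +X^7
      +X^6 +X^5 +X^4 +X^3 +X^2 +X +1)) * two

theorem g_natDegree : g.natDegree = 10 := by
  unfold g
  compute_degree!

theorem g_monic : g.Monic := by
  unfold g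
  monicity!

/-- The first and the last ten coordinates. -/
def lo (j : Fin 10) : Fin 20 := Fin.castAdd 10 j
def hi (j : Fin 10) : Fin 20 := Fin.natAdd 10 j

theorem sum_split {M : Type*} [AddCommMonoid M] (f : Fin 20 → M) :
    ∑ k, f k = ∑ j, f (lo j) + ∑ j, f (hi j) := Fin.sum_univ_add (a := 10) (b := 10) f

theorem toPoly_eq (c : Fin 20 → ZMod 2) : toPoly c = g * (∑ k, C (c (hi k)) * Q k) +
    ∑ j : Fin 10, C (c (lo j) + ∑ k, A j k * c (hi k)) * X ^ (j : ℕ) := by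
  unfold toPoly
  rw [sum_split]
  have h1 : ∀ j : Fin 10, C (c (hi j)) * (X : (ZMod 2)[X]) ^ ((hi j : Fin 20) : ℕ) =
      C (c (hi j)) * (g * Q j) + ∑ l : Fin 10, C (A l j * c (hi j)) * X ^ (l : ℕ) := by
    intro j
    have e : ((hi j : Fin 20) : ℕ) = 10 + (j : ℕ) := rfl
    rw [e, division, rho_eq, mul_add, Finset.mul_sum]
    congr 1
    apply Finset.sum_congr rfl
    intro l _
    rw [C_mul]
    ring
  simp_rw [h1]
  rw [Finset.sum_add_distrib, Finset.mul_sum, Finset.sum_comm]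
  have h2 : ∀ j : Fin 10, C (c (lo j) + ∑ k, A j k * c (hi k)) * (X : (ZMod 2)[X]) ^ (j : ℕ) =
      C (c (lo j)) * X ^ (j : ℕ) + ∑ k, C (A j k * c (hi k)) * X ^ (j : ℕ) := by
    intro j
    rw [C_add, add_mul, map_sum, Finset.sum_mul]
  simp_rw [h2]
  rw [Finset.sum_add_distrib]
  have h3 : ∀ j : Fin 10, ((lo j : Fin 20) : ℕ) = (j : ℕ) := fun j => rfl
  simp_rw [h3]
  have h4 : ∀ j : Fin 10, C (c (hi j)) * (g * Q j) = g * (C (c (hi j)) * Q j) := by
    intro j; ring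
  simp_rw [h4]
  ring

theorem mem_iff (c : Fin 20 → ZMod 2) (hg : g ∣ tri 20 10) :
    c ∈ code 20 10 g ↔ ∀ j, c (lo j) = ∑ k, A j k * c (hi k) := by
  rw [mem_code hg, toPoly_eq]
  have neg1 : ∀ x y : ZMod 2, x + y = 0 ↔ x = y := by decide
  constructor
  · intro h j
    have h1 : g ∣ ∑ j : Fin 10, C (c (lo j) + ∑ k, A j k * c (hi k)) * X ^ (j : ℕ) :=
      (dvd_add_right (dvd_mul_right g _)).mp h
    have h2 : (∑ j : Fin 10, C (c (lo j) + ∑ k, A j k * c (hi k)) * (X : (ZMod 2)[X]) ^ (j : ℕ))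
        = 0 := by
      apply Polynomial.eq_zero_of_dvd_of_degree_lt h1
      refine lt_of_le_of_lt (Polynomial.degree_sum_le _ _) ?_
      rw [Finset.sup_lt_iff]
      · intro j _
        refine lt_of_le_of_lt (Polynomial.degree_C_mul_X_pow_le _ _) ?_
        rw [Polynomial.degree_eq_natDegree g_monic.ne_zero, g_natDegree]
        exact_mod_cast j.2
      · rw [Polynomial.degree_eq_natDegree g_monic.ne_zero, g_natDegree]
        exact WithBot.bot_lt_coe _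
    have h3 := congrArg (fun p => Polynomial.coeff p (j : ℕ)) h2
    simp only [finsetSum_coeff, coeff_C_mul, coeff_X_pow, coeff_zero, mul_ite, mul_one,
      mul_zero] at h3
    have h4 : ∀ x : Fin 10, ((j : ℕ) = (x : ℕ)) ↔ j = x := fun x => Fin.val_inj
    simp_rw [h4] at h3
    rw [Finset.sum_ite_eq] at h3
    simp only [Finset.mem_univ, if_true] at h3
    exact (neg1 _ _).mp h3
  · intro h
    apply dvd_add (dvd_mul_right _ _)
    have : ∀ j : Fin 10, C (c (lo j) + ∑ k, A j k * c (hi k)) * (X : (ZMod 2)[X]) ^ (j : ℕ) = 0 := by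
      intro j
      rw [(neg1 _ _).mpr (h j), C_0, zero_mul]
    simp_rw [this]
    simp

/-- Exchange of the two halves. -/
def sw : Equiv.Perm (Fin 20) where
  toFun k := ⟨(k + 10) % 20, Nat.mod_lt _ (by norm_num)⟩
  invFun k := ⟨(k + 10) % 20, Nat.mod_lt _ (by norm_num)⟩
  left_inv := by decide
  right_inv := by decide

theorem sw_lo : ∀ j, sw (lo j) = hi j := by decide
theorem sw_hi : ∀ j, sw (hi j) = lo j := by decide
theorem sw_sw : ∀ j, sw (sw j) = j := by decide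

theorem g_dvd : g ∣ tri 20 10 := by
  refine ⟨X ^ 10 + X ^ 9 + X ^ 8 + X ^ 4 + X ^ 3 + X + 1, ?_⟩
  unfold tri g
  linear_combination (-(X + X ^ 2 + X ^ 3 + X ^ 4 + X ^ 5 + X ^ 6 + X ^ 7 + X ^ 8 + 2 * X ^ 9 +
    3 * X ^ 10 + 2 * X ^ 11 + X ^ 12 + X ^ 13 + X ^ 14 + X ^ 15 + X ^ 16 + X ^ 17 + X ^ 18 +
    X ^ 19)) * two

theorem g_sq_ne : g ^ 2 ≠ tri 20 10 := by
  intro h
  have h1 := congrArg (fun p => Polynomial.coeff p 18) h
  have e : g ^ 2 = X ^ 20 + X ^ 18 + X ^ 14 + X ^ 12 + X ^ 4 + X ^ 2 + 1 := by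
    unfold g
    linear_combination (X + X ^ 2 + X ^ 3 + X ^ 6 + 2 * X ^ 7 + 2 * X ^ 8 + 2 * X ^ 9 + 2 * X ^ 10 +
      2 * X ^ 11 + X ^ 12 + X ^ 13 + X ^ 15 + 2 * X ^ 16 + X ^ 17 + X ^ 19) * two
  rw [e] at h1
  unfold tri at h1
  simp [coeff_X_pow, coeff_one] at h1

theorem isoDual : IsoDual (code 20 10 g) := by
  refine ⟨sw, ?_⟩
  ext u
  constructor
  · rintro ⟨c, hc, rfl⟩ v hv
    rw [mem_iff _ g_dvd] at hc hv
    rw [sum_split]
    simp only [Function.comp, sw_lo, sw_hi, hc, hv, Finset.sum_mul, Finset.mul_sum]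
    have h1 : ∀ i j : Fin 10, A i j * c (hi j) * v (hi i) = c (hi j) * (A j i * v (hi i)) := by
      intro i j
      rw [A_symm i j]
      ring
    simp_rw [h1]
    rw [Finset.sum_comm (f := fun i j => c (hi j) * (A j i * v (hi i)))]
    have h2 : ∀ x : ZMod 2, x + x = 0 := by decide
    exact h2 _
  · intro hu
    refine ⟨u ∘ sw, ?_, ?_⟩
    · rw [mem_iff _ g_dvd]
      intro j
      simp only [Function.comp, sw_lo, sw_hi]
      have hv := hu (fun k => if k = hi j then 1 else if h : (k : ℕ) < 10 then A ⟨k, h⟩ j else 0)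
        (by
          rw [mem_iff _ g_dvd]
          intro l
          have h1 : ∀ l j : Fin 10, (lo l = hi j) = False := by decide
          have h2 : ∀ l j : Fin 10, (hi l = hi j) = (l = j) := by decide
          have h3 : ∀ l : Fin 10, ((hi l : Fin 20) : ℕ) < 10 ↔ False := by decide
          have h4 : ∀ l : Fin 10, ((lo l : Fin 20) : ℕ) < 10 := by decide
          simp only [h1, h2, if_false, h4, dif_pos]
          have h5 : ∀ k : Fin 10, (if k = j then (1 : ZMod 2) else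
            if h : ((hi k : Fin 20) : ℕ) < 10 then A ⟨((hi k : Fin 20) : ℕ), h⟩ j else 0) =
              if k = j then 1 else 0 := by
            intro k
            have : ¬ ((hi k : Fin 20) : ℕ) < 10 := (h3 k).not.mpr (by simp)
            rw [dif_neg this]
          simp only [h5]
          simp [lo])
      rw [sum_split] at hv
      have h2 : ∀ k : Fin 10, (hi k = hi j) = (k = j) := by
        intro k
        have : ∀ l j : Fin 10, (hi l = hi j) = (l = j) := by decide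
        exact this k j
      have h3 : ∀ l : Fin 10, ¬ ((hi l : Fin 20) : ℕ) < 10 := by decide
      have h4 : ∀ l : Fin 10, ((lo l : Fin 20) : ℕ) < 10 := by decide
      have h1 : ∀ l : Fin 10, (lo l = hi j) = False := by
        intro l
        have : ∀ l j : Fin 10, (lo l = hi j) = False := by decide
        exact this l j
      simp only [h1, h2, if_false, h4, h3, dif_pos, dif_neg, not_false_iff, mul_ite, mul_one,
        mul_zero, Finset.sum_ite_eq', Finset.mem_univ, if_true] at hv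
      have neg1 : ∀ x y : ZMod 2, x + y = 0 ↔ y = x := by decide
      rw [neg1] at hv
      rw [hv]
      apply Finset.sum_congr rfl
      intro k _
      have e : (⟨((lo k : Fin 20) : ℕ), h4 k⟩ : Fin 10) = k := by
        ext
        rfl
      rw [e, A_symm k j, mul_comm]
    · ext k
      simp [Function.comp, sw_sw]

/-- The monic divisor `g = x^10 + x^9 + x^7 + x^6 + x^2 + x + 1` of `t = x^20 + x^10 + 1` generates
an iso-dual polycyclic code, but `g ^ 2 ≠ t`. -/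
theorem result : g.Monic ∧ g ∣ tri 20 10 ∧ IsoDual (code 20 10 g) ∧ g ^ 2 ≠ tri 20 10 :=
  ⟨g_monic, g_dvd, isoDual, g_sq_ne⟩

end Pool.Agent.Results.MP_f969e6_lc.IsoDualNotSquare
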